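import Mathlib

namespace Pool.Agent.Results.MP_75315a_co.FourThirds

/-- The Euclidean plane. -/
abbrev Plane := EuclideanSpace ℝ (Fin 2)

/-- `s` is the vertex set of a non-degenerate triangle of perimeter `1`. -/
def IsUnitPerimeterTriangle (s : Finset Plane) : Prop :=
  ∃ a b c : Plane, (s : Set Plane) = {a, b, c} ∧ ¬ Collinear ℝ ({a, b, c} : Set Plane) ∧
    dist a b + dist b c + dist c a = 1

open Classical in
/-- The unit-perimeter triangles spanned by `P`, each counted once as an unordered triple. -/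
noncomputable def triangles (P : Finset Plane) : Finset (Finset Plane) :=
  (P.powersetCard 3).filter IsUnitPerimeterTriangle

/-- `u n` is the maximum number of unit-perimeter triangles spanned by `n` points. -/
noncomputable def u (n : ℕ) : ℕ :=
  sSup {k | ∃ P : Finset Plane, P.card = n ∧ (triangles P).card = k}

/-! ### The parametrization -/

/-- The point attached to `(a, b)`. -/
noncomputable def Y (a b : ℝ) : Plane :=
  !₂[(a ^ 2 - b ^ 2) / (2 * (1 + a ^ 2 + b ^ 2)), (2 * a * b) / (2 * (1 + a ^ 2 + b ^ 2))]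

lemma Y_zero (a b : ℝ) : Y a b 0 = (a ^ 2 - b ^ 2) / (2 * (1 + a ^ 2 + b ^ 2)) := rfl
lemma Y_one (a b : ℝ) : Y a b 1 = (2 * a * b) / (2 * (1 + a ^ 2 + b ^ 2)) := rfl

lemma dist_plane (p q : Plane) : dist p q = Real.sqrt ((p 0 - q 0) ^ 2 + (p 1 - q 1) ^ 2) := by
  rw [EuclideanSpace.dist_eq, Fin.sum_univ_two, Real.dist_eq, Real.dist_eq, sq_abs, sq_abs]

lemma dist_zero_Y (a b : ℝ) :
    dist (0 : Plane) (Y a b) = (a ^ 2 + b ^ 2) / (2 * (1 + a ^ 2 + b ^ 2)) := by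
  have hA : 0 < 1 + a ^ 2 + b ^ 2 := by positivity
  rw [dist_plane, Y_zero, Y_one]
  have : ((0 : Plane) 0 - (a ^ 2 - b ^ 2) / (2 * (1 + a ^ 2 + b ^ 2))) ^ 2
      + ((0 : Plane) 1 - (2 * a * b) / (2 * (1 + a ^ 2 + b ^ 2))) ^ 2
      = ((a ^ 2 + b ^ 2) / (2 * (1 + a ^ 2 + b ^ 2))) ^ 2 := by
    simp only [PiLp.zero_apply]
    field_simp
    ring
  rw [this, Real.sqrt_sq (by positivity)]

lemma dist_Y_Y (a b c d : ℝ) (h : (a * d - b * c) ^ 2 = 1) :
    dist (Y a b) (Y c d) = (2 + (a ^ 2 + b ^ 2) + (c ^ 2 + d ^ 2)) /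
      (2 * (1 + a ^ 2 + b ^ 2) * (1 + c ^ 2 + d ^ 2)) := by
  have hA : 0 < 1 + a ^ 2 + b ^ 2 := by positivity
  have hC : 0 < 1 + c ^ 2 + d ^ 2 := by positivity
  rw [dist_plane, Y_zero, Y_one, Y_zero, Y_one]
  have : ((a ^ 2 - b ^ 2) / (2 * (1 + a ^ 2 + b ^ 2)) -
        (c ^ 2 - d ^ 2) / (2 * (1 + c ^ 2 + d ^ 2))) ^ 2
      + ((2 * a * b) / (2 * (1 + a ^ 2 + b ^ 2)) - (2 * c * d) / (2 * (1 + c ^ 2 + d ^ 2))) ^ 2
      = ((2 + (a ^ 2 + b ^ 2) + (c ^ 2 + d ^ 2)) /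
      (2 * (1 + a ^ 2 + b ^ 2) * (1 + c ^ 2 + d ^ 2))) ^ 2 := by
    rw [div_sub_div _ _ (by positivity) (by positivity),
      div_sub_div _ _ (by positivity) (by positivity), div_pow, div_pow, div_pow,
      ← add_div, div_eq_div_iff (by positivity) (by positivity)]
    linear_combination (64 * (1 + a ^ 2 + b ^ 2) ^ 3 * (1 + c ^ 2 + d ^ 2) ^ 3 * 1) * h
  rw [this, Real.sqrt_sq (by positivity)]

lemma perimeter_eq_one (a b c d : ℝ) (h : (a * d - b * c) ^ 2 = 1) :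
    dist (0 : Plane) (Y a b) + dist (Y a b) (Y c d) + dist (Y c d) (0 : Plane) = 1 := by
  have hA : 0 < 1 + a ^ 2 + b ^ 2 := by positivity
  have hC : 0 < 1 + c ^ 2 + d ^ 2 := by positivity
  rw [dist_comm (Y c d) 0, dist_zero_Y, dist_zero_Y, dist_Y_Y a b c d h]
  field_simp
  ring

lemma not_collinear_Y (a b c d : ℝ) (h : (a * d - b * c) ^ 2 = 1) (h2 : 0 < a * c + b * d) :
    ¬ Collinear ℝ ({(0 : Plane), Y a b, Y c d} : Set Plane) := by
  intro hcol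
  have hA : 0 < 1 + a ^ 2 + b ^ 2 := by positivity
  have hC : 0 < 1 + c ^ 2 + d ^ 2 := by positivity
  obtain ⟨v, hv⟩ := (collinear_iff_of_mem (p₀ := (0 : Plane)) (by simp)).1 hcol
  obtain ⟨r, hr⟩ := hv (Y a b) (by simp)
  obtain ⟨s, hs⟩ := hv (Y c d) (by simp)
  have hr0 : (a ^ 2 - b ^ 2) / (2 * (1 + a ^ 2 + b ^ 2)) = r * v 0 := by
    rw [← Y_zero, hr]; simp
  have hr1 : (2 * a * b) / (2 * (1 + a ^ 2 + b ^ 2)) = r * v 1 := by
    rw [← Y_one, hr]; simp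
  have hs0 : (c ^ 2 - d ^ 2) / (2 * (1 + c ^ 2 + d ^ 2)) = s * v 0 := by
    rw [← Y_zero, hs]; simp
  have hs1 : (2 * c * d) / (2 * (1 + c ^ 2 + d ^ 2)) = s * v 1 := by
    rw [← Y_one, hs]; simp
  have hcross : (a ^ 2 - b ^ 2) / (2 * (1 + a ^ 2 + b ^ 2)) *
      ((2 * c * d) / (2 * (1 + c ^ 2 + d ^ 2))) =
      (2 * a * b) / (2 * (1 + a ^ 2 + b ^ 2)) *
      ((c ^ 2 - d ^ 2) / (2 * (1 + c ^ 2 + d ^ 2))) := by
    rw [hr0, hr1, hs0, hs1]; ring
  rw [div_mul_div_comm, div_mul_div_comm, div_left_inj' (by positivity)] at hcross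
  have hz : 2 * (a * c + b * d) * (a * d - b * c) = 0 := by linear_combination hcross
  have hne : a * d - b * c ≠ 0 := by
    intro h0
    rw [h0] at h
    norm_num at h
  have := mul_ne_zero (mul_ne_zero two_ne_zero h2.ne') hne
  exact this hz

lemma Y_inj {a b c d : ℝ} (ha : 0 < a) (hb : 0 < b) (hc : 0 < c) (hd : 0 < d)
    (h : Y a b = Y c d) : a = c ∧ b = d := by
  have hA : 0 < 1 + a ^ 2 + b ^ 2 := by positivity
  have hC : 0 < 1 + c ^ 2 + d ^ 2 := by positivity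
  have hn : dist (0 : Plane) (Y a b) = dist (0 : Plane) (Y c d) := by rw [h]
  rw [dist_zero_Y, dist_zero_Y, div_eq_div_iff (by positivity) (by positivity)] at hn
  have hAC : a ^ 2 + b ^ 2 = c ^ 2 + d ^ 2 := by linarith
  have h0 : Y a b 0 = Y c d 0 := by rw [h]
  rw [Y_zero, Y_zero, div_eq_div_iff (by positivity) (by positivity)] at h0
  have hAC' : 1 + c ^ 2 + d ^ 2 = 1 + a ^ 2 + b ^ 2 := by linarith
  rw [hAC'] at h0
  have h1 : a ^ 2 - b ^ 2 = c ^ 2 - d ^ 2 := mul_right_cancel₀ (by positivity) h0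
  constructor
  · have : a ^ 2 = c ^ 2 := by linarith
    exact (pow_left_inj₀ ha.le hc.le two_ne_zero).1 this
  · have : b ^ 2 = d ^ 2 := by linarith
    exact (pow_left_inj₀ hb.le hd.le two_ne_zero).1 this

lemma Y_ne_zero {a b : ℝ} (ha : 0 < a) (hb : 0 < b) : Y a b ≠ 0 := by
  intro h
  have hn : dist (0 : Plane) (Y a b) = 0 := by rw [h, dist_self]
  rw [dist_zero_Y] at hn
  have : 0 < (a ^ 2 + b ^ 2) / (2 * (1 + a ^ 2 + b ^ 2)) := by positivity
  linarith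

/-! ### The configuration -/

/-- Points of the first type. -/
noncomputable def p1 (m b : ℕ) : Plane := Y (1 / (b : ℝ)) ((m : ℝ) / b)

/-- Points of the second type. -/
noncomputable def p2 (x y : ℕ) : Plane := Y (x : ℝ) (y : ℝ)

open Classical in
/-- The configuration. -/
noncomputable def conf (k : ℕ) : Finset Plane :=
  insert 0 (((Finset.Icc 1 k ×ˢ Finset.Icc 2 (k ^ 2 + 1)).image fun p => p1 p.1 p.2) ∪
    ((Finset.Icc 1 k ×ˢ Finset.Icc 1 (2 * k ^ 2 + 1)).image fun p => p2 p.1 p.2))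

lemma conf_card (k : ℕ) (hk : 1 ≤ k) : (conf k).card ≤ 5 * k ^ 3 := by
  classical
  unfold conf
  refine (Finset.card_insert_le _ _).trans ?_
  have h1 : (((Finset.Icc 1 k ×ˢ Finset.Icc 2 (k ^ 2 + 1)).image
      fun p => p1 p.1 p.2)).card ≤ k * k ^ 2 := by
    refine Finset.card_image_le.trans ?_
    rw [Finset.card_product, Nat.card_Icc, Nat.card_Icc]
    exact le_of_eq (by congr 1)
  have h2 : (((Finset.Icc 1 k ×ˢ Finset.Icc 1 (2 * k ^ 2 + 1)).image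
      fun p => p2 p.1 p.2)).card ≤ k * (2 * k ^ 2 + 1) := by
    refine Finset.card_image_le.trans ?_
    rw [Finset.card_product, Nat.card_Icc, Nat.card_Icc]
    exact le_of_eq (by congr 1)
  have h3 := Finset.card_union_le ((Finset.Icc 1 k ×ˢ Finset.Icc 2 (k ^ 2 + 1)).image
      fun p => p1 p.1 p.2) ((Finset.Icc 1 k ×ˢ Finset.Icc 1 (2 * k ^ 2 + 1)).image
      fun p => p2 p.1 p.2)
  have h4 : k ≤ k ^ 3 := Nat.le_self_pow (by norm_num) k
  have h5 : 1 ≤ k ^ 3 := Nat.one_le_pow _ _ hk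
  have h6 : k * k ^ 2 = k ^ 3 := by ring
  have h7 : k * (2 * k ^ 2 + 1) = 2 * k ^ 3 + k := by ring
  omega

open Classical in
/-- The triangle attached to an incidence. -/
noncomputable def tri (q : ℕ × ℕ × ℕ) : Finset Plane :=
  {0, p1 q.1 q.2.1, p2 q.2.2 (q.1 * q.2.2 + q.2.1)}

lemma p1_ne_zero {m b : ℕ} (hm : 1 ≤ m) (hb : 2 ≤ b) : p1 m b ≠ 0 := by
  have hm' : (0 : ℝ) < m := by exact_mod_cast hm
  have hb' : (0 : ℝ) < b := by exact_mod_cast (by omega : 0 < b)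
  exact Y_ne_zero (by positivity) (by positivity)

lemma p2_ne_zero {x y : ℕ} (hx : 1 ≤ x) (hy : 1 ≤ y) : p2 x y ≠ 0 := by
  have hx' : (0 : ℝ) < x := by exact_mod_cast hx
  have hy' : (0 : ℝ) < y := by exact_mod_cast hy
  exact Y_ne_zero (by positivity) (by positivity)

lemma p1_ne_p2 {m b x y : ℕ} (hm : 1 ≤ m) (hb : 2 ≤ b) (hx : 1 ≤ x) (hy : 1 ≤ y) :
    p1 m b ≠ p2 x y := by
  intro h
  have hm' : (0 : ℝ) < m := by exact_mod_cast hm
  have hb' : (0 : ℝ) < b := by exact_mod_cast (by omega : 0 < b)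
  have hx' : (0 : ℝ) < x := by exact_mod_cast hx
  have hy' : (0 : ℝ) < y := by exact_mod_cast hy
  have h1 := (Y_inj (by positivity) (by positivity) hx' hy' h).1
  have h2 : (1 : ℝ) ≤ x := by exact_mod_cast hx
  have h3 : (2 : ℝ) ≤ b := by exact_mod_cast hb
  have h4 : 1 / (b : ℝ) < 1 := by
    rw [div_lt_one hb']
    linarith
  linarith

lemma p1_inj {m b m' b' : ℕ} (hm : 1 ≤ m) (hb : 2 ≤ b) (hm' : 1 ≤ m') (hb' : 2 ≤ b')
    (h : p1 m b = p1 m' b') : m = m' ∧ b = b' := by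
  have h1 : (0 : ℝ) < m := by exact_mod_cast hm
  have h2 : (0 : ℝ) < b := by exact_mod_cast (by omega : 0 < b)
  have h3 : (0 : ℝ) < m' := by exact_mod_cast hm'
  have h4 : (0 : ℝ) < b' := by exact_mod_cast (by omega : 0 < b')
  obtain ⟨e1, e2⟩ := Y_inj (by positivity) (by positivity) (by positivity) (by positivity) h
  have e3 : (b : ℝ) = b' := by
    rw [div_eq_div_iff h2.ne' h4.ne'] at e1
    linarith
  rw [← e3, div_left_inj' h2.ne'] at e2
  exact ⟨by exact_mod_cast e2, by exact_mod_cast e3⟩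

lemma p2_inj {x y x' y' : ℕ} (hx : 1 ≤ x) (hy : 1 ≤ y) (hx' : 1 ≤ x') (hy' : 1 ≤ y')
    (h : p2 x y = p2 x' y') : x = x' ∧ y = y' := by
  have h1 : (0 : ℝ) < x := by exact_mod_cast hx
  have h2 : (0 : ℝ) < y := by exact_mod_cast hy
  have h3 : (0 : ℝ) < x' := by exact_mod_cast hx'
  have h4 : (0 : ℝ) < y' := by exact_mod_cast hy'
  obtain ⟨e1, e2⟩ := Y_inj h1 h2 h3 h4 h
  exact ⟨by exact_mod_cast e1, by exact_mod_cast e2⟩

lemma tri_isUnit {m b x : ℕ} (hm : 1 ≤ m) (hb : 2 ≤ b) (hx : 1 ≤ x) :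
    IsUnitPerimeterTriangle (tri (m, b, x)) := by
  have h1 : (0 : ℝ) < m := by exact_mod_cast hm
  have h2 : (0 : ℝ) < b := by exact_mod_cast (by omega : 0 < b)
  have h3 : (0 : ℝ) < x := by exact_mod_cast hx
  have hdet : (1 / (b : ℝ) * ((m * x + b : ℕ) : ℝ) - (m : ℝ) / b * x) ^ 2 = 1 := by
    push_cast
    field_simp
    ring
  refine ⟨0, p1 m b, p2 x (m * x + b), ?_, ?_, ?_⟩
  · simp [tri]
  · exact not_collinear_Y _ _ _ _ hdet (by positivity)
  · exact perimeter_eq_one _ _ _ _ hdet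

lemma tri_card {m b x : ℕ} (hm : 1 ≤ m) (hb : 2 ≤ b) (hx : 1 ≤ x) :
    (tri (m, b, x)).card = 3 := by
  classical
  have hy : 1 ≤ m * x + b := by omega
  unfold tri
  rw [Finset.card_eq_three]
  exact ⟨0, p1 m b, p2 x (m * x + b), (p1_ne_zero hm hb).symm, (p2_ne_zero hx hy).symm,
    p1_ne_p2 hm hb hx hy, rfl⟩

lemma tri_subset {k m b x : ℕ} (hm : 1 ≤ m) (hmk : m ≤ k) (hb : 2 ≤ b) (hbk : b ≤ k ^ 2 + 1)
    (hx : 1 ≤ x) (hxk : x ≤ k) : tri (m, b, x) ⊆ conf k := by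
  classical
  have hy : 1 ≤ m * x + b := by omega
  have hyk : m * x + b ≤ 2 * k ^ 2 + 1 := by
    have := Nat.mul_le_mul hmk hxk
    nlinarith
  unfold tri conf
  intro p hp
  simp only [Finset.mem_insert, Finset.mem_singleton] at hp
  simp only [Finset.mem_insert, Finset.mem_union, Finset.mem_image, Finset.mem_product,
    Finset.mem_Icc, Prod.exists]
  rcases hp with rfl | rfl | rfl
  · exact Or.inl rfl
  · exact Or.inr (Or.inl ⟨m, b, ⟨⟨hm, hmk⟩, ⟨hb, hbk⟩⟩, rfl⟩)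
  · exact Or.inr (Or.inr ⟨x, m * x + b, ⟨⟨hx, hxk⟩, ⟨hy, hyk⟩⟩, rfl⟩)

lemma tri_inj {m b x m' b' x' : ℕ} (hm : 1 ≤ m) (hb : 2 ≤ b) (hx : 1 ≤ x)
    (hm' : 1 ≤ m') (hb' : 2 ≤ b') (hx' : 1 ≤ x') (h : tri (m, b, x) = tri (m', b', x')) :
    (m, b, x) = (m', b', x') := by
  classical
  have hy : 1 ≤ m * x + b := by omega
  have hy' : 1 ≤ m' * x' + b' := by omega
  have h1 : p1 m b ∈ tri (m', b', x') := by
    rw [← h]; simp [tri]
  have h2 : p2 x (m * x + b) ∈ tri (m', b', x') := by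
    rw [← h]; simp [tri]
  simp only [tri, Finset.mem_insert, Finset.mem_singleton] at h1 h2
  have e1 : p1 m b = p1 m' b' := by
    rcases h1 with h1 | h1 | h1
    · exact absurd h1 (p1_ne_zero hm hb)
    · exact h1
    · exact absurd h1 (p1_ne_p2 hm hb hx' hy')
  have e2 : p2 x (m * x + b) = p2 x' (m' * x' + b') := by
    rcases h2 with h2 | h2 | h2
    · exact absurd h2 (p2_ne_zero hx hy)
    · exact absurd h2.symm (p1_ne_p2 hm' hb' hx hy)
    · exact h2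
  obtain ⟨rfl, rfl⟩ := p1_inj hm hb hm' hb' e1
  obtain ⟨rfl, -⟩ := p2_inj hx hy hx' hy' e2
  rfl

lemma many_triangles (k : ℕ) (P : Finset Plane) (hP : conf k ⊆ P) :
    k ^ 4 ≤ (triangles P).card := by
  classical
  have hcard : (Finset.Icc 1 k ×ˢ Finset.Icc 2 (k ^ 2 + 1) ×ˢ Finset.Icc 1 k).card = k ^ 4 := by
    rw [Finset.card_product, Finset.card_product, Nat.card_Icc, Nat.card_Icc]
    have h1 : k + 1 - 1 = k := by omega
    have h2 : k ^ 2 + 1 + 1 - 2 = k ^ 2 := by omega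
    rw [h1, h2]
    ring
  rw [← hcard]
  apply Finset.card_le_card_of_injOn tri
  · intro q hq
    obtain ⟨m, b, x⟩ := q
    simp only [Finset.coe_product, Finset.coe_Icc, Set.mem_prod, Set.mem_Icc] at hq
    obtain ⟨⟨hm, hmk⟩, ⟨hb, hbk⟩, hx, hxk⟩ := hq
    simp only [triangles, Finset.coe_filter, Finset.mem_powersetCard, Set.mem_ofPred_eq]
    exact ⟨⟨(tri_subset hm hmk hb hbk hx hxk).trans hP, tri_card hm hb hx⟩,
      tri_isUnit hm hb hx⟩
  · intro q hq q' hq' h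
    obtain ⟨m, b, x⟩ := q
    obtain ⟨m', b', x'⟩ := q'
    simp only [Finset.coe_product, Finset.coe_Icc, Set.mem_prod, Set.mem_Icc] at hq hq'
    exact tri_inj hq.1.1 hq.2.1.1 hq.2.2.1 hq'.1.1 hq'.2.1.1 hq'.2.2.1 h

/-! ### The bound for `u` -/

lemma exists_card (n : ℕ) : ∃ P : Finset Plane, P.card = n :=
  Infinite.exists_subset_card_eq Plane n

lemma u_bdd (n : ℕ) :
    BddAbove {k | ∃ P : Finset Plane, P.card = n ∧ (triangles P).card = k} := by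
  classical
  refine ⟨n.choose 3, ?_⟩
  rintro k ⟨P, hP, rfl⟩
  rw [← hP, ← Finset.card_powersetCard]
  exact Finset.card_le_card (Finset.filter_subset _ _)

/-- `u n` is attained. -/
lemma u_attained (n : ℕ) : ∃ P : Finset Plane, P.card = n ∧ (triangles P).card = u n := by
  have h := Nat.sSup_mem (s := {k | ∃ P : Finset Plane, P.card = n ∧ (triangles P).card = k})
    (by
      obtain ⟨P, hP⟩ := exists_card n
      exact ⟨_, P, hP, rfl⟩) (u_bdd n)
  exact h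

/-- `u n` is an upper bound. -/
lemma le_u {n : ℕ} (P : Finset Plane) (hP : P.card = n) : (triangles P).card ≤ u n :=
  le_csSup (u_bdd n) ⟨P, hP, rfl⟩

lemma pow_le_u {n k : ℕ} (hk : 1 ≤ k) (hn : 5 * k ^ 3 ≤ n) : k ^ 4 ≤ u n := by
  obtain ⟨P, hP, hPn⟩ := Infinite.exists_superset_card_eq (conf k) n
    ((conf_card k hk).trans hn)
  exact (many_triangles k P hP).trans (le_u P hPn)

theorem result :
    (∃ c : ℝ, 0 < c ∧ ∀ n : ℕ, 5 ≤ n → c * (n : ℝ) ^ (4 / 3 : ℝ) ≤ (u n : ℝ)) ∧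
    (∀ n : ℕ, ∃ P : Finset Plane, P.card = n ∧ (triangles P).card = u n ∧
      ∀ Q : Finset Plane, Q.card = n → (triangles Q).card ≤ (triangles P).card) := by
  refine ⟨⟨((40 : ℝ) ^ (4 / 3 : ℝ))⁻¹, by positivity, ?_⟩, ?_⟩
  · intro n hn
    obtain ⟨k, hk1, hk2, hk3⟩ : ∃ k : ℕ, 1 ≤ k ∧ 5 * k ^ 3 ≤ n ∧ n < 5 * (k + 1) ^ 3 := by
      have hex : ∃ k : ℕ, n < 5 * (k + 1) ^ 3 := ⟨n, by
        have : n + 1 ≤ (n + 1) ^ 3 := Nat.le_self_pow (by norm_num) _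
        omega⟩
      classical
      refine ⟨Nat.find hex, ?_, ?_, Nat.find_spec hex⟩
      · rw [Nat.one_le_iff_ne_zero]
        intro h0
        have := Nat.find_spec hex
        rw [h0] at this
        omega
      · rcases Nat.eq_zero_or_pos (Nat.find hex) with h0 | h0
        · have := Nat.find_spec hex
          rw [h0] at this
          omega
        · have := Nat.find_min hex (m := Nat.find hex - 1) (by omega)
          rw [Nat.sub_add_cancel h0] at this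
          omega
    have hle : n ≤ 40 * k ^ 3 := by
      have h1 : (k + 1) ^ 3 ≤ (2 * k) ^ 3 := Nat.pow_le_pow_left (by omega) 3
      have h2 : (2 * k) ^ 3 = 8 * k ^ 3 := by ring
      omega
    have hu : ((k : ℝ) ^ 4) ≤ u n := by exact_mod_cast pow_le_u hk1 hk2
    have hnk : (n : ℝ) ≤ 40 * (k : ℝ) ^ 3 := by exact_mod_cast hle
    have hk0 : (0 : ℝ) ≤ k := Nat.cast_nonneg k
    have hpow : (n : ℝ) ^ (4 / 3 : ℝ) ≤ (40 : ℝ) ^ (4 / 3 : ℝ) * (k : ℝ) ^ 4 := by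
      calc (n : ℝ) ^ (4 / 3 : ℝ) ≤ (40 * (k : ℝ) ^ 3) ^ (4 / 3 : ℝ) :=
            Real.rpow_le_rpow (Nat.cast_nonneg n) hnk (by norm_num)
        _ = (40 : ℝ) ^ (4 / 3 : ℝ) * ((k : ℝ) ^ 3) ^ (4 / 3 : ℝ) :=
            Real.mul_rpow (by norm_num) (by positivity)
        _ = (40 : ℝ) ^ (4 / 3 : ℝ) * (k : ℝ) ^ 4 := by
            congr 1
            rw [← Real.rpow_natCast (k : ℝ) 3, ← Real.rpow_mul hk0,
              ← Real.rpow_natCast (k : ℝ) 4]
            congr 1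
            norm_num
    calc ((40 : ℝ) ^ (4 / 3 : ℝ))⁻¹ * (n : ℝ) ^ (4 / 3 : ℝ)
        ≤ ((40 : ℝ) ^ (4 / 3 : ℝ))⁻¹ * ((40 : ℝ) ^ (4 / 3 : ℝ) * (k : ℝ) ^ 4) :=
          mul_le_mul_of_nonneg_left hpow (by positivity)
      _ = (k : ℝ) ^ 4 := by
          rw [← mul_assoc, inv_mul_cancel₀ (by positivity), one_mul]
      _ ≤ u n := hu
  · intro n
    obtain ⟨P, hP, hPu⟩ := u_attained n
    exact ⟨P, hP, hPu, fun Q hQ => hPu ▸ le_u Q hQ⟩

end Pool.Agent.Results.MP_75315a_co.FourThirds
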